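import Pool.Agent.Y196.JX.Stm3

/-!
# Project JX, job RATE (helper139): the entropy rate is a limit
-/

set_option autoImplicit false

namespace Pool.Agent.Y139.JX

open Finset H942JM Filter Topology

lemma E_law_succ' (μ : ℤ →₀ ℝ) (a : ℤ) (n : ℕ) (f : ℤ → ℝ) :
    E (law μ a (n + 1)) f = E (law μ a n) fun x => E μ fun b => f (a * x + b) := by
  have key : ∀ (x : ℤ) (p : ℝ),
      ((μ.sum fun b r => Finsupp.single (a * x + b) (p * r)).sum fun x p => p * f x)
        = p * E μ fun b => f (a * x + b) := by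
    intro x p
    rw [Finsupp.sum_sum_index (by intro a; ring) (by intro a b1 b2; ring)]
    have : ∀ (b : ℤ) (r : ℝ), ((Finsupp.single (a * x + b) (p * r)).sum fun x p => p * f x)
        = p * r * f (a * x + b) := by
      intro b r
      rw [Finsupp.sum_single_index (by ring)]
    simp only [this]
    unfold E Finsupp.sum
    rw [Finset.mul_sum]
    exact Finset.sum_congr rfl fun b _ => by ring
  unfold E
  rw [law, Finsupp.sum_sum_index (by intro a; ring) (by intro a b1 b2; ring)]
  unfold Finsupp.sum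
  refine Finset.sum_congr rfl fun x _ => ?_
  exact key x _

lemma E_law_zero (μ : ℤ →₀ ℝ) (a : ℤ) (f : ℤ → ℝ) : E (law μ a 0) f = f 0 := by
  unfold E
  rw [law, Finsupp.sum_single_index (by ring)]
  ring

lemma E_law_add (μ : ℤ →₀ ℝ) (a : ℤ) (m n : ℕ) (f : ℤ → ℝ) :
    E (law μ a (m + n)) f =
      E (law μ a m) fun x => E (law μ a n) fun y => f (a ^ n * x + y) := by
  induction n generalizing f with
  | zero =>
    simp only [E_law_zero, pow_zero, one_mul, add_zero]
  | succ n ih =>
    rw [← add_assoc, E_law_succ', ih]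
    congr 1
    funext x
    rw [E_law_succ']
    congr 1
    funext y
    congr 1
    funext b
    congr 1
    rw [pow_succ]
    ring

lemma law_one (μ : ℤ →₀ ℝ) (h1 : (μ.sum fun _ p => p) = 1) (a : ℤ) (n : ℕ) :
    ((law μ a n).sum fun _ p => p) = 1 := by
  have e : ∀ P : ℤ →₀ ℝ, (P.sum fun _ p => p) = E P fun _ => 1 := by
    intro P
    unfold E
    simp only [mul_one]
  rw [e] at h1 ⊢
  induction n with
  | zero => rw [E_law_zero]
  | succ n ih =>
    rw [E_law_succ', h1]
    exact ih

lemma entropy_eq (P : ℤ →₀ ℝ) : entropy P = ∑ x ∈ P.support, P x * Real.log (1 / P x) := rfl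

lemma E_eq (P : ℤ →₀ ℝ) (f : ℤ → ℝ) : E P f = ∑ x ∈ P.support, P x * f x := rfl

lemma sub_add (μ : ℤ →₀ ℝ) (a : ℤ) (h0 : ∀ x, 0 ≤ μ x) (h1 : (μ.sum fun _ p => p) = 1)
    (m n : ℕ) :
    entropy (law μ a (m + n)) ≤ entropy (law μ a m) + entropy (law μ a n) := by
  set P := law μ a (m + n) with hP
  set R := law μ a m with hR
  set S := law μ a n with hS
  have R0 : ∀ x, 0 ≤ R x := law_nonneg h0 a m
  have S0 : ∀ x, 0 ≤ S x := law_nonneg h0 a n
  have R1 : ∑ x ∈ R.support, R x = 1 := law_one μ h1 a m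
  have S1 : ∑ x ∈ S.support, S x = 1 := law_one μ h1 a n
  have low : ∀ x ∈ R.support, ∀ y ∈ S.support, R x * S y ≤ P (a ^ n * x + y) := by
    intro x hx y hy
    have e1 : P (a ^ n * x + y) = E P fun z => if z = a ^ n * x + y then 1 else 0 := by
      rw [E_eq]
      simp only [mul_ite, mul_one, mul_zero]
      rw [Finset.sum_ite_eq' P.support (a ^ n * x + y) fun z => P z]
      split_ifs with h
      · rfl
      · exact Finsupp.notMem_support_iff.1 h
    rw [e1, hP, E_law_add, ← hR, ← hS, E_eq]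
    have i1 : ∀ z ∈ R.support, 0 ≤ R z *
        E S fun w => if a ^ n * z + w = a ^ n * x + y then (1 : ℝ) else 0 := by
      intro z _
      refine mul_nonneg (R0 z) ?_
      rw [E_eq]
      refine Finset.sum_nonneg fun w _ => mul_nonneg (S0 w) ?_
      split_ifs <;> norm_num
    refine le_trans ?_ (Finset.single_le_sum i1 hx)
    refine mul_le_mul_of_nonneg_left ?_ (R0 x)
    rw [E_eq]
    have i2 : ∀ w ∈ S.support, 0 ≤ S w *
        (if a ^ n * x + w = a ^ n * x + y then (1 : ℝ) else 0) := by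
      intro w _
      refine mul_nonneg (S0 w) ?_
      split_ifs <;> norm_num
    refine le_trans ?_ (Finset.single_le_sum i2 hy)
    rw [if_pos rfl, mul_one]
  have e2 : entropy P = E P fun z => Real.log (1 / P z) := rfl
  rw [e2, hP, E_law_add, ← hR, ← hS, ← hP, E_eq]
  have key : ∀ x ∈ R.support, R x * (E S fun y => Real.log (1 / P (a ^ n * x + y))) ≤
      R x * Real.log (1 / R x) + R x * entropy S := by
    intro x hx
    rw [← mul_add]
    refine mul_le_mul_of_nonneg_left ?_ (R0 x)
    have e3 : Real.log (1 / R x) + entropy S =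
        ∑ y ∈ S.support, S y * (Real.log (1 / R x) + Real.log (1 / S y)) := by
      simp only [mul_add]
      rw [Finset.sum_add_distrib, ← Finset.sum_mul, S1, one_mul, entropy_eq]
    rw [e3, E_eq]
    refine Finset.sum_le_sum fun y hy => mul_le_mul_of_nonneg_left ?_ (S0 y)
    have rp : 0 < R x := lt_of_le_of_ne (R0 x) (Finsupp.mem_support_iff.1 hx).symm
    have sp : 0 < S y := lt_of_le_of_ne (S0 y) (Finsupp.mem_support_iff.1 hy).symm
    have hl := low x hx y hy
    rw [← Real.log_mul (by positivity) (by positivity)]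
    have e4 : 1 / R x * (1 / S y) = 1 / (R x * S y) := by
      rw [one_div_mul_one_div]
    rw [e4]
    have pp : 0 < P (a ^ n * x + y) := lt_of_lt_of_le (mul_pos rp sp) hl
    exact Real.log_le_log (by positivity) (one_div_le_one_div_of_le (mul_pos rp sp) hl)
  refine (Finset.sum_le_sum key).trans (le_of_eq ?_)
  rw [Finset.sum_add_distrib, ← Finset.sum_mul, R1, one_mul, entropy_eq R]

lemma entropy_nonneg (P : ℤ →₀ ℝ) (h0 : ∀ x, 0 ≤ P x) (h1 : (P.sum fun _ p => p) = 1) :
    0 ≤ entropy P := by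
  rw [entropy_eq]
  refine Finset.sum_nonneg fun x hx => mul_nonneg (h0 x) ?_
  have hp : 0 < P x := lt_of_le_of_ne (h0 x) (Finsupp.mem_support_iff.1 hx).symm
  have h2 : P x ≤ 1 := by
    have h3 : ∑ x ∈ P.support, P x = 1 := h1
    rw [← h3]
    exact Finset.single_le_sum (fun y _ => h0 y) hx
  exact Real.log_nonneg ((one_le_div hp).2 h2)

/-- RATE. -/
theorem rate : Pool.Agent.Y196.JX.S_RATE := by
  intro μ a h0 h1
  have hs : Subadditive fun n : ℕ => entropy (law μ a n) := fun m n => sub_add μ a h0 h1 m n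
  have hb : BddBelow (Set.range fun n : ℕ => entropy (law μ a n) / (n : ℝ)) := by
    refine ⟨0, ?_⟩
    rintro _ ⟨n, rfl⟩
    exact div_nonneg (entropy_nonneg _ (law_nonneg h0 a n) (law_one μ h1 a n)) n.cast_nonneg
  have h := hs.tendsto_lim hb
  have e : entropyRate μ a = hs.lim := h.limUnder_eq
  rw [e]
  exact h

end Pool.Agent.Y139.JX
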